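import Pool.Agent.H59.UV.Stm

set_option autoImplicit false

namespace Pool.Agent.H60.UV

open Finset Pool.Agent.H59.UV

theorem t_CNC : S_CNC := by
  intro N j hj
  have h1 : ((N.choose (j + 1) : ℕ) : ℝ) * ((j : ℝ) + 1) = (N.choose j : ℝ) * ((N : ℝ) - j) := by
    have h := Nat.choose_succ_right_eq N j
    have hle : j ≤ N := by omega
    have h' : ((N.choose (j + 1) * (j + 1) : ℕ) : ℝ) = ((N.choose j * (N - j) : ℕ) : ℝ) := by
      exact_mod_cast h
    rw [Nat.cast_mul, Nat.cast_mul, Nat.cast_sub hle] at h'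
    push_cast at h'
    exact h'
  have h2 : ((N.choose (j + 2) : ℕ) : ℝ) * ((j : ℝ) + 2) =
      (N.choose (j + 1) : ℝ) * ((N : ℝ) - (j + 1)) := by
    have h := Nat.choose_succ_right_eq N (j + 1)
    have h' : ((N.choose (j + 1 + 1) * (j + 1 + 1) : ℕ) : ℝ) =
        ((N.choose (j + 1) * (N - (j + 1)) : ℕ) : ℝ) := by
      exact_mod_cast h
    rw [Nat.cast_mul, Nat.cast_mul, Nat.cast_sub hj] at h'
    push_cast at h'
    have e : j + 1 + 1 = j + 2 := rfl
    rw [e] at h'
    linear_combination h'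
  linear_combination -((N : ℝ) - j) * h2 + ((j : ℝ) + 2) * h1

end Pool.Agent.H60.UV
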